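import Pool.Agent.Q189.KS.Slow

/-! MP_b5f63d_co: slow variation of the exponents `log_2 τ(d) / d` of the kissing numbers and of the
exponents of spherical codes: every exponent between `c_-` and `c_+` is approximated in whole blocks
`n ≤ m ≤ (1 + ε / 8) n` of consecutive dimensions, the exponents converge if and only if their
averages do, and the limit exponents of finitely many angles form a connected set. -/

set_option autoImplicit false

open Filter Set
open scoped Topology

namespace Pool.Agent.Results.MP_b5f63d_co.BlocksOfDimensions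

open Pool.Agent.H818R2

/-- arithmetic mean of `u n` over the dimensions `1 ≤ n ≤ N` -/
noncomputable def avg (u : ℕ → ℝ) (N : ℕ) : ℝ := (∑ n ∈ Finset.Icc 1 N, u n) / N

/-- The sequence `u` varies slowly with the constants `B` and `A`: -/
structure VariesSlowly (u : ℕ → ℝ) (B A : ℝ) : Prop where
  /-- two-sided slow variation -/
  modulus : ∀ n m : ℕ, 4 ≤ n → n ≤ m → |u m - u n| ≤ B * (1 - n / m)
  /-- every point between the lower and the upper limit is approximated, for every `ε`, at all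
  indices of infinitely many blocks `[n, (1 + ε / (2 B)) n]` -/
  blocks : ∀ x ε : ℝ, liminf u atTop ≤ x → x ≤ limsup u atTop → 0 < ε →
    ∃ᶠ n : ℕ in atTop, ∀ m : ℕ, n ≤ m → (m : ℝ) ≤ (1 + ε / (2 * B)) * n → |u m - x| < ε
  /-- convergence of the sequence is convergence of its averages -/
  averages : ∀ L : ℝ, Tendsto u atTop (𝓝 L) ↔ Tendsto (avg u) atTop (𝓝 L)
  /-- quantitatively -/
  oscillation : (limsup u atTop - liminf u atTop) ^ 2 ≤
    A * (limsup (avg u) atTop - liminf (avg u) atTop)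
  /-- convergence may be tested along any sequence of indices with ratios tending to one -/
  sparse : ∀ φ : ℕ → ℕ, StrictMono φ → Tendsto (fun j => (φ (j + 1) : ℝ) / φ j) atTop (𝓝 1) →
    ∀ L : ℝ, Tendsto u atTop (𝓝 L) ↔ Tendsto (fun j => u (φ j)) atTop (𝓝 L)

lemma variesSlowly {u : ℕ → ℝ} {C K : ℝ} (hK : 0 < K) (hCK : K ≤ C) (hu0 : ∀ n, 0 ≤ u n)
    (huK : ∀ n, u n ≤ K)
    (h1 : ∀ n : ℕ, 1 ≤ n → (n : ℝ) * u n ≤ ((n : ℝ) + 1) * u (n + 1))
    (h2 : ∀ n : ℕ, 4 ≤ n → ((n : ℝ) + 1) * u (n + 1) ≤ C + n * u n)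
    (hx : ∀ x ∈ Icc (liminf u atTop) (limsup u atTop), MapClusterPt x atTop u) :
    VariesSlowly u C (16 * K) := by
  have hsd := Q189.KS.slowDec hK hu0 huK h1
  have hmod : ∀ n m : ℕ, 4 ≤ n → n ≤ m → |u m - u n| ≤ C * (1 - n / m) := by
    intro n m hn hm
    have hm0 : (0 : ℝ) < m := by exact_mod_cast (by omega : 0 < m)
    have hnm : (n : ℝ) ≤ m := by exact_mod_cast hm
    have hq : 0 ≤ 1 - (n : ℝ) / m := by
      rw [sub_nonneg, div_le_one hm0]; exact hnm
    obtain ⟨e1, e2⟩ := Q189.KS.slow (N := 4) hu0 huK (fun k hk => h1 k (by omega)) h2 (by norm_num)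
      hn hm
    rw [abs_le]
    have := mul_le_mul_of_nonneg_right hCK hq
    constructor <;> linarith
  refine ⟨hmod, ?_, fun L => Pool.Agent.TH915.HC.tendsto_iff hsd, Q189.KS.osc_sq hK hsd,
    fun φ hφ hr L => hsd.tendsto_seq hφ hr L⟩
  intro x ε hx1 hx2 hε
  refine Q189.KS.blocks (hK.trans_le hCK) (N := 4) (by norm_num) hmod hε ?_
  have h3 := mapClusterPt_iff_frequently.1 (hx x ⟨hx1, hx2⟩) (Metric.ball x (ε / 2))
    (Metric.ball_mem_nhds x (by positivity))
  exact h3.mono fun n hn => by simpa [Real.dist_eq] using hn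

/-- monotonicity, in logarithms -/
lemma step_low {θ : ℝ} (hs : 0 < Real.sin (θ / 2)) {n : ℕ} (hn : 1 ≤ n) :
    (n : ℝ) * codeRate θ n ≤ ((n : ℝ) + 1) * codeRate θ (n + 1) := by
  have : NeZero n := ⟨by omega⟩
  have hn0 : (0 : ℝ) < n := by exact_mod_cast hn
  have h1 : sphMax n θ ≤ sphMax (n + 1) θ := sphMax_mono_succ hs
  have e0 : Real.logb 2 (sphMax n θ) = n * codeRate θ n := by
    unfold codeRate
    field_simp
  have e1 : Real.logb 2 (sphMax (n + 1) θ) = ((n : ℝ) + 1) * codeRate θ (n + 1) := by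
    unfold codeRate
    push_cast
    field_simp
  rw [← e0, ← e1]
  rcases Nat.eq_zero_or_pos (sphMax n θ) with h0 | h0
  · rw [h0]
    simp only [Nat.cast_zero, Real.logb_zero]
    rcases Nat.eq_zero_or_pos (sphMax (n + 1) θ) with h3 | h3
    · rw [h3]; simp
    · exact Real.logb_nonneg (by norm_num) (by exact_mod_cast h3)
  · exact Real.logb_le_logb_of_le (by norm_num) (by exact_mod_cast h0) (by exact_mod_cast h1)

lemma step_up {θ C : ℝ} (hs : 0 < Real.sin (θ / 2)) {M : ℕ} (hM : 0 < M)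
    (hC : C = Real.logb 2 M) {n : ℕ} (hn : 4 ≤ n) (h2 : sphMax (n + 1) θ ≤ M * sphMax n θ) :
    ((n : ℝ) + 1) * codeRate θ (n + 1) ≤ C + n * codeRate θ n := by
  have : NeZero n := ⟨by omega⟩
  have hn0 : (0 : ℝ) < n := by exact_mod_cast (by omega : 0 < n)
  have h1 : sphMax n θ ≤ sphMax (n + 1) θ := sphMax_mono_succ hs
  have hpos : 0 < sphMax n θ := by
    have := sphMax_pos (d := n) (by omega) hs
    exact_mod_cast this
  have hposR : (0 : ℝ) < sphMax n θ := by exact_mod_cast hpos
  have hMR : (0 : ℝ) < M := by exact_mod_cast hM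
  have e0 : Real.logb 2 (sphMax n θ) = n * codeRate θ n := by
    unfold codeRate
    field_simp
  have e1 : Real.logb 2 (sphMax (n + 1) θ) = ((n : ℝ) + 1) * codeRate θ (n + 1) := by
    unfold codeRate
    push_cast
    field_simp
  rw [← e0, ← e1, hC, ← Real.logb_mul hMR.ne' hposR.ne']
  apply Real.logb_le_logb_of_le (by norm_num)
  · exact_mod_cast lt_of_lt_of_le hpos h1
  · exact_mod_cast h2

lemma sin_half_pos {θ : ℝ} (hθ : 0 < θ) (hθ2 : θ < Real.pi / 2) : 0 < Real.sin (θ / 2) :=
  Real.sin_pos_of_pos_of_lt_pi (by linarith) (by linarith [Real.pi_pos])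

theorem all_angles {θ : ℝ} (hθ : 0 < θ) (hθ2 : θ < Real.pi / 2) :
    ∃ B A : ℝ, 0 < B ∧ VariesSlowly (codeRate θ) B A := by
  have hs := sin_half_pos hθ hθ2
  obtain ⟨m, hm, h7⟩ := exists_m hθ hθ2
  set K := Real.logb 2 ((1 + 2 * Real.sin (θ / 2)) / Real.sin (θ / 2)) with hKd
  have hK : 0 < K := by
    apply Real.logb_pos (by norm_num)
    rw [lt_div_iff₀ hs]
    linarith
  set C := Real.logb 2 ((8 * m : ℕ) : ℝ) with hC
  refine ⟨max C K, 16 * K, lt_of_lt_of_le hK (le_max_right _ _), ?_⟩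
  refine variesSlowly hK (le_max_right _ _) (codeRate_nonneg θ) (codeRate_le hs)
    (fun n hn => step_low hs hn) (fun n hn => ?_) (fun x hx => ?_)
  · have h2 := sphMax_succ_le hθ hθ2 hm h7 hn
    have h3 := step_up (θ := θ) (C := C) hs (M := 8 * m) (by positivity) hC hn h2
    linarith [le_max_left C K]
  · have := codeRate_clusterPts hθ hθ2
    rw [Set.ext_iff] at this
    exact (this x).2 hx

theorem kissing_case : VariesSlowly (fun d : ℕ => Real.logb 2 (kissing d) / d) 4 32 := by
  have hθ : (0 : ℝ) < Real.pi / 3 := by positivity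
  have hθ2 : Real.pi / 3 < Real.pi / 2 := by linarith [Real.pi_pos]
  have hs := sin_half_pos hθ hθ2
  have hK : Real.logb 2 ((1 + 2 * Real.sin (Real.pi / 3 / 2)) / Real.sin (Real.pi / 3 / 2)) = 2 := by
    rw [show Real.pi / 3 / 2 = Real.pi / 6 by ring, Real.sin_pi_div_six,
      show ((1 : ℝ) + 2 * (1 / 2)) / (1 / 2) = 2 ^ (2 : ℝ) by norm_num,
      Real.logb_rpow (by norm_num) (by norm_num)]
  have h := variesSlowly (u := codeRate (Real.pi / 3)) (C := 4) (K := 2) (by norm_num)
    (by norm_num) (codeRate_nonneg _) (fun n => hK ▸ codeRate_le hs n)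
    (fun n hn => step_low hs hn) (fun n hn => ?_) (fun x hx => ?_)
  · have e : (16 : ℝ) * 2 = 32 := by norm_num
    rw [e] at h
    exact h
  · refine step_up hs (M := 16) (by norm_num) ?_ hn (kissing_succ_le hn)
    rw [show ((16 : ℕ) : ℝ) = 2 ^ (4 : ℝ) by norm_num, Real.logb_rpow (by norm_num) (by norm_num)]
  · have := codeRate_clusterPts hθ hθ2
    rw [Set.ext_iff] at this
    exact (this x).2 hx

theorem connected (ι : Type) [Finite ι] (θ : ι → ℝ) (hθ : ∀ i, 0 < θ i ∧ θ i < Real.pi / 2) :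
    IsConnected {x : ι → ℝ | MapClusterPt x atTop (fun (d : ℕ) (i : ι) => codeRate (θ i) d)} := by
  have := Fintype.ofFinite ι
  set K : ι → ℝ := fun i =>
    Real.logb 2 ((1 + 2 * Real.sin (θ i / 2)) / Real.sin (θ i / 2)) with hK
  have hS : IsCompact (Set.pi univ fun i => Icc (0 : ℝ) (K i)) :=
    isCompact_univ_pi fun i => isCompact_Icc
  have hu : ∀ d : ℕ, (fun i => codeRate (θ i) d) ∈ Set.pi univ fun i => Icc (0 : ℝ) (K i) :=
    fun d i _ => ⟨codeRate_nonneg _ _, codeRate_le (sin_half_pos (hθ i).1 (hθ i).2) _⟩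
  constructor
  · obtain ⟨x, -, hx⟩ := hS.exists_mapClusterPt_of_frequently (l := atTop)
      (f := fun (d : ℕ) (i : ι) => codeRate (θ i) d) (Frequently.of_forall hu)
    exact ⟨x, hx⟩
  · refine Q189.KS.isPreconnected_limitSet hS hu ?_
    have h1 : Tendsto (fun (d : ℕ) (i : ι) => codeRate (θ i) (d + 1) - codeRate (θ i) d) atTop
        (𝓝 0) := by
      rw [tendsto_pi_nhds]
      intro i
      exact codeRate_diff (hθ i).1 (hθ i).2
    have h2 := h1.norm
    rw [norm_zero] at h2
    refine h2.congr fun d => ?_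
    rw [dist_comm, dist_eq_norm]
    rfl

/-- (1) `|u m - u n| ≤ 4 (1 - n / m)` for the exponents `u d = log_2 τ(d) / d` of the kissing numbers
and `4 ≤ n ≤ m`; for every `x` between `c_-` and `c_+` and every `ε` there are infinitely many `n`
with `|u m - x| < ε` for all `n ≤ m ≤ (1 + ε / 8) n`; `c_- = c_+` if and only if the averages of `u`
converge, and `(c_+ - c_-) ^ 2` is at most `32` times the oscillation of the averages. (2) The same
with other constants for the spherical codes with any angle `0 < θ < π / 2`. (3) For finitely many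
angles the limit points of the vector of the exponents form a connected set. -/
theorem result :
    VariesSlowly (fun d : ℕ => Real.logb 2 (kissing d) / d) 4 32 ∧
    (∀ θ : ℝ, 0 < θ → θ < Real.pi / 2 → ∃ B A : ℝ, 0 < B ∧ VariesSlowly (codeRate θ) B A) ∧
    (∀ (ι : Type) [Finite ι] (θ : ι → ℝ), (∀ i, 0 < θ i ∧ θ i < Real.pi / 2) →
      IsConnected {x : ι → ℝ |
        MapClusterPt x atTop (fun (d : ℕ) (i : ι) => codeRate (θ i) d)}) :=
  ⟨kissing_case, fun _ h1 h2 => all_angles h1 h2, fun ι _ θ hθ => connected ι θ hθ⟩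

end Pool.Agent.Results.MP_b5f63d_co.BlocksOfDimensions
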