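import Pool.Agent.Q213.GD.Kiss

/-! MP_b5f63d_co: almost every geometric progression of dimensions sees all joint limit points of
the exponents of spherical codes, and decides whether `c_- = c_+`. -/

open Filter Set MeasureTheory
open scoped Topology

namespace Pool.Agent.Results.MP_b5f63d_co.GeometricDimensions

open Pool.Agent.H818R2

theorem result :
    (∀ θ : ℕ → ℝ, (∀ i, 0 < θ i ∧ θ i < Real.pi / 2) →
      ∀ᵐ x : ℝ, 1 < x → ∀ c : ℝ, 0 < c → ∀ n : ℕ → ℕ,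
        Tendsto (fun k => (n k : ℝ) / x ^ k) atTop (𝓝 c) →
          {y : ℕ → ℝ | MapClusterPt y atTop (fun k i => codeRate (θ i) (n k))} =
            {y : ℕ → ℝ | MapClusterPt y atTop (fun d i => codeRate (θ i) d)}) ∧
    (∀ᵐ x : ℝ, 1 < x → ∀ c : ℝ, 0 < c → ∀ n : ℕ → ℕ,
      Tendsto (fun k => (n k : ℝ) / x ^ k) atTop (𝓝 c) →
        {y : ℝ | MapClusterPt y atTop (fun k => Real.logb 2 (kissing (n k)) / (n k : ℝ))} =
          Icc (liminf (fun d : ℕ => Real.logb 2 (kissing d) / (d : ℝ)) atTop)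
            (limsup (fun d : ℕ => Real.logb 2 (kissing d) / (d : ℝ)) atTop)) ∧
    ((∃ L : ℝ, Tendsto (fun d : ℕ => Real.logb 2 (kissing d) / (d : ℝ)) atTop (𝓝 L)) ↔
      volume {x : ℝ | 1 < x ∧ ∃ L : ℝ, Tendsto (fun k : ℕ =>
        Real.logb 2 (kissing ⌊x ^ k⌋₊) / (⌊x ^ k⌋₊ : ℝ)) atTop (𝓝 L)} ≠ 0) := by
  have e : (fun d : ℕ => Real.logb 2 (kissing d) / (d : ℝ)) = codeRate (Real.pi / 3) := rfl
  have hθ : (0 : ℝ) < Real.pi / 3 := by positivity
  have hθ2 : Real.pi / 3 < Real.pi / 2 := by linarith [Real.pi_pos]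
  have hs : 0 < Real.sin (Real.pi / 3 / 2) :=
    Real.sin_pos_of_pos_of_lt_pi (by linarith) (by linarith [Real.pi_pos])
  have hg := Q213.GD.geometric_joint (Q213.GD.codeRate_slow hθ hθ2)
  refine ⟨fun θ h => Q213.GD.geometric_joint (Q213.GD.slow_pi fun i =>
    Q213.GD.codeRate_slow (h i).1 (h i).2), ?_, ?_⟩
  · rw [e, ← codeRate_clusterPts hθ hθ2]
    exact hg
  · rw [e]
    exact Q213.GD.decides_of (codeRate_nonneg _) (codeRate_le hs) hg

end Pool.Agent.Results.MP_b5f63d_co.GeometricDimensions
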