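import Pool.Agent.Q213.GD.RandomDec

/-! MP_b5f63d_co: random sets of dimensions with a bounded expected number of elements in
`[N, 2 N]` see all joint limit points of the exponents of spherical codes. -/

open Filter Set MeasureTheory ProbabilityTheory
open scoped Topology

namespace Pool.Agent.Results.MP_b5f63d_co.RandomDimensions

open Pool.Agent.H818R2

/-- the sums of `p` over the windows `[N, (1 + κ) N]` are bounded from below, for every `κ` -/
def Thick (p : ℕ → ℝ) : Prop :=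
  ∀ κ : ℝ, 0 < κ → ∃ c : ℝ, 0 < c ∧ ∀ᶠ N : ℕ in atTop,
    c ≤ ∑ n ∈ Finset.Icc N ⌊(1 + κ) * (N : ℝ)⌋₊, p n

theorem result (Ω : Type) [MeasurableSpace Ω] (P : Measure Ω) [IsProbabilityMeasure P]
    (A : ℕ → Set Ω) (hA : ∀ n, MeasurableSet (A n)) (hi : iIndepSet A P)
    (hp : Thick fun n => P.real (A n)) :
    (∀ θ : ℕ → ℝ, (∀ i, 0 < θ i ∧ θ i < Real.pi / 2) →
      ∀ᵐ ω ∂P, {y : ℕ → ℝ | MapClusterPt y (atTop ⊓ 𝓟 {n | ω ∈ A n})
          (fun d i => codeRate (θ i) d)} =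
        {y : ℕ → ℝ | MapClusterPt y atTop (fun d i => codeRate (θ i) d)}) ∧
    (∀ᵐ ω ∂P, {y : ℝ | MapClusterPt y (atTop ⊓ 𝓟 {n | ω ∈ A n})
        (fun d : ℕ => Real.logb 2 (kissing d) / (d : ℝ))} =
      Icc (liminf (fun d : ℕ => Real.logb 2 (kissing d) / (d : ℝ)) atTop)
        (limsup (fun d : ℕ => Real.logb 2 (kissing d) / (d : ℝ)) atTop)) ∧
    ((∃ L : ℝ, Tendsto (fun d : ℕ => Real.logb 2 (kissing d) / (d : ℝ)) atTop (𝓝 L)) ↔
      P {ω | ∃ L : ℝ, Tendsto (fun d : ℕ => Real.logb 2 (kissing d) / (d : ℝ))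
        (atTop ⊓ 𝓟 {n | ω ∈ A n}) (𝓝 L)} ≠ 0) := by
  have e : (fun d : ℕ => Real.logb 2 (kissing d) / (d : ℝ)) = codeRate (Real.pi / 3) := rfl
  have hθ : (0 : ℝ) < Real.pi / 3 := by positivity
  have hθ2 : Real.pi / 3 < Real.pi / 2 := by linarith [Real.pi_pos]
  have hs : 0 < Real.sin (Real.pi / 3 / 2) :=
    Real.sin_pos_of_pos_of_lt_pi (by linarith) (by linarith [Real.pi_pos])
  have hg := Q213.GD.random_joint (Q213.GD.codeRate_slow hθ hθ2) hA hi hp
  refine ⟨fun θ h => Q213.GD.random_joint (Q213.GD.slow_pi fun i =>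
    Q213.GD.codeRate_slow (h i).1 (h i).2) hA hi hp, ?_, ?_⟩
  · rw [e, ← codeRate_clusterPts hθ hθ2]
    exact hg
  · rw [e]
    exact Q213.GD.random_decides (codeRate_nonneg _) (codeRate_le hs) hg

end Pool.Agent.Results.MP_b5f63d_co.RandomDimensions
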